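import Pool.Agent.Helper52.GPM.S

/-! Gilbert-Pollak, chapter MSTF, module xCard. -/

namespace Pool.Agent.Helper19.GPM

open Relation Classical Pool.Agent.Helper18.GP Pool.Agent.Helper52.GPM

private theorem mr_mono {N : ℕ} {F : Fin N → Fin N → Prop} {m m' : Finset (Fin N × Fin N)}
    (h : m ⊆ m') {x y : Fin N} (hxy : EqvGen (mr m F) x y) : EqvGen (mr m' F) x y := by
  have hle : mr m F ≤ mr m' F := by
    intro a b hab
    rcases hab with h1 | h1
    · exact Or.inl (h h1)
    · exact Or.inr h1
  exact EqvGen.mono hle _ _ hxy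

theorem mod_xCard (hU : xUse) (hC : xLoop ∧ xEx ∧ xSplit ∧ xBridge ∧ xExch) : xCard := by
  obtain ⟨-, -, hSplit, hBridge, -⟩ := hC
  intro N V w F hw m hm
  rcases V.eq_empty_or_nonempty with hV | ⟨r, hr⟩
  · have hm0 : m = ∅ := by
      rw [Finset.eq_empty_iff_forall_notMem]
      intro e he
      have := (hm.1.1 e he).1
      rw [hV] at this
      simp at this
    rw [hm0]
    simp
  -- the far end of a pair
  have hfar : ∀ e : Fin N × Fin N, ∃ v, e ∈ m → v ∈ V ∧ ¬ EqvGen (mr (m.erase e) F) v r ∧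
      ∃ p, EqvGen (mr (m.erase e) F) p r ∧ (e = (v, p) ∨ e = (p, v)) := by
    rintro ⟨a, b⟩
    by_cases he : (a, b) ∈ m
    · have hb := hBridge N V w F hw m hm a b he
      have hV' := hm.1.1 _ he
      rcases hSplit N V F m hm.1 a b he r hr with h | h
      · exact ⟨b, fun _ => ⟨hV'.2, fun h2 => hb ((h.symm _ _).trans _ _ _ (h2.symm _ _)), a,
          h.symm _ _, Or.inr rfl⟩⟩
      · exact ⟨a, fun _ => ⟨hV'.1, fun h2 => hb (h2.trans _ _ _ h), b, h.symm _ _, Or.inl rfl⟩⟩
    · exact ⟨r, fun h => absurd h he⟩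
  choose far hf using hfar
  have hcard : m.card ≤ (V.erase r).card := by
    refine Finset.card_le_card_of_injOn far ?_ ?_
    · intro e he
      obtain ⟨h1, h2, -⟩ := hf e he
      refine Finset.mem_coe.2 (Finset.mem_erase.2 ⟨fun h => h2 ?_, h1⟩)
      rw [h]
      exact EqvGen.refl _
    · intro e he e2 he2 hee
      by_contra hne
      have he' : e ∈ m := he
      have he2' : e2 ∈ m := he2
      obtain ⟨-, hn1, p, hp, hep⟩ := hf e he'
      obtain ⟨-, hn2, p2, hp2, hep2⟩ := hf e2 he2'
      rw [← hee] at hn2 hep2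
      obtain ⟨v, hv⟩ : ∃ v, far e = v := ⟨_, rfl⟩
      rw [hv] at hn1 hn2 hep hep2
      have hee2 : e ∈ m.erase e2 := Finset.mem_erase.2 ⟨hne, he'⟩
      -- `v = far e` and `p` are not connected without `e`
      have hb : ¬ EqvGen (mr (m.erase e) F) p v := by
        intro h
        rcases hep with h3 | h3
        · rw [h3] at h he'
          exact hBridge N V w F hw m hm _ _ he' (h.symm _ _)
        · rw [h3] at h he'
          exact hBridge N V w F hw m hm _ _ he' h
      have hvp : EqvGen (mr (m.erase e2) F) v p := by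
        rcases hep with h3 | h3
        · exact EqvGen.rel _ _ (Or.inl (h3 ▸ hee2))
        · exact EqvGen.symm _ _ (EqvGen.rel _ _ (Or.inl (h3 ▸ hee2)))
      have hsub1 : (m.erase e).erase e2 ⊆ m.erase e := Finset.erase_subset _ _
      have hsub2 : (m.erase e).erase e2 ⊆ m.erase e2 := by
        intro x hx
        rw [Finset.mem_erase, Finset.mem_erase] at hx
        exact Finset.mem_erase.2 ⟨hx.1, hx.2.2⟩
      have huse := hU N F (m.erase e) e2.1 e2.2 p r hp
      rw [Prod.mk.eta] at huse
      rcases huse with h | ⟨h1, h2⟩ | ⟨h1, h2⟩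
      · exact hn2 (hvp.trans _ _ _ (mr_mono hsub2 h))
      · rcases hep2 with h3 | h3
        · rw [h3] at h1
          exact hb (mr_mono (h3 ▸ hsub1) h1)
        · rw [h3] at h2
          exact hn1 (mr_mono (h3 ▸ hsub1) h2)
      · rcases hep2 with h3 | h3
        · rw [h3] at h2
          exact hn1 (mr_mono (h3 ▸ hsub1) h2)
        · rw [h3] at h1
          exact hb (mr_mono (h3 ▸ hsub1) h1)
  rwa [Finset.card_erase_of_mem hr] at hcard

end Pool.Agent.Helper19.GPM
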